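import Pool.Agent.helper5.SYM.SpecA

/-!
# Row sy:L6
-/

set_option autoImplicit false

namespace Pool.Agent.SYM
open Finset CT

theorem L6_zero {W : Type} [DecidableEq W] (L : List W) :
    ∀ e : W × Fin 4 → W × Fin 4, NL (fun _ => 0) L e = 0 := by
  induction L with
  | nil =>
    intro e
    rfl
  | cons u L ih =>
    intro e
    show (∑ t : Fin 3, if ls e u t = 0 then NL (fun _ => 0) L (sm e u t) else 0) = 0
    refine Finset.sum_eq_zero fun t _ => ?_
    rw [ih]
    simp

theorem L6_core (hCMN : CMN_stmt) (hIN : IN_stmt) (hDS : DS_stmt) (hTRI : TRI_stmt)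
    {W : Type} [DecidableEq W] (y z u : W) (E : Finset (W × Fin 4))
    (e : W × Fin 4 → W × Fin 4) (p q : W × Fin 4) (hyz : y ≠ z) (hyu : y ≠ u) (hzu : z ≠ u)
    (hE : E.card = 6) (hx : ∀ x ∈ E, x.1 ≠ y ∧ x.1 ≠ z ∧ x.1 ≠ u)
    (hA : Act (dts {y, z, u} ∪ E) e) (hp : p ∈ E) (hq : q ∈ E) (hpq : p ≠ q) :
    NL (fun e' => if e' p = q then 1 else 0) [y, z, u] e = 0 := by
  have hnd : ([y, z, u] : List W).Nodup := by
    simp [hyz, hyu, hzu]
  have hinv := hA.1
  have hact : ∀ v ∈ ([y, z, u] : List W), ∀ i, e (v, i) ≠ (v, i) := by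
    intro v hv i
    rw [hA.2]
    refine Finset.mem_union_left _ ?_
    simp only [dts, Finset.mem_product, Finset.mem_univ, and_true]
    simpa using hv
  have hmem : ∀ v : W, v ∈ ({y, z, u} : Finset W) → v ∈ ([y, z, u] : List W) := by
    intro v hv
    simpa using hv
  by_cases h1 : ∃ v ∈ ({y, z, u} : Finset W), ∃ k, (e (v, k)).1 = v
  · obtain ⟨v, hv, k, hk⟩ := h1
    have hvl := hmem v hv
    rw [hCMN W _ [y, z, u] (v :: ([y, z, u] : List W).erase v) e (List.perm_cons_erase hvl) hnd
      hinv hact]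
    have h2 : e (v, k) = (v, (e (v, k)).2) := by
      rw [Prod.ext_iff]
      exact ⟨hk, rfl⟩
    refine hIN W _ v _ e k (e (v, k)).2 hinv (hact v hvl) ?_ h2
    intro h3
    apply hact v hvl k
    rw [h2, ← h3]
  · by_cases h2 : ∃ v ∈ ({y, z, u} : Finset W), ∃ w ∈ ({y, z, u} : Finset W), ∃ k l,
      (e (v, k)).1 = w ∧ (e (v, l)).1 = w ∧ k ≠ l
    · obtain ⟨v, hv, w, hw, k, l, hk, hl, hkl⟩ := h2
      have hvl := hmem v hv
      have hwl := hmem w hw
      have hvw : v ≠ w := by
        intro h3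
        apply h1
        exact ⟨v, hv, k, by rw [hk, h3]⟩
      have hwl2 : w ∈ ([y, z, u] : List W).erase v :=
        (List.mem_erase_of_ne (Ne.symm hvw)).2 hwl
      have hperm : ([y, z, u] : List W).Perm
          (v :: w :: (([y, z, u] : List W).erase v).erase w) :=
        (List.perm_cons_erase hvl).trans ((List.perm_cons_erase hwl2).cons v)
      rw [hCMN W _ [y, z, u] _ e hperm hnd hinv hact]
      have h4 : e (v, k) = (w, (e (v, k)).2) := by
        rw [Prod.ext_iff]
        exact ⟨hk, rfl⟩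
      have h5 : e (v, l) = (w, (e (v, l)).2) := by
        rw [Prod.ext_iff]
        exact ⟨hl, rfl⟩
      exact hDS W _ v w _ e k l _ _ hvw hinv (hact v hvl) (hact w hwl) hkl h4 h5
    · refine hTRI W y z u E e p q hyz hyu hzu hE hx hA hp hq hpq ?_ ?_
      · intro v hv k hk
        exact h1 ⟨v, hv, k, hk⟩
      · intro v hv w hw k l hk hl
        by_contra hkl
        exact h2 ⟨v, hv, w, hw, k, l, hk, hl, hkl⟩

theorem L6 (hNA : NA_stmt) (hNLC : NLC_stmt) (hCMN : CMN_stmt) (hIN : IN_stmt) (hDS : DS_stmt)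
    (hTRI : TRI_stmt) : L6_stmt := by
  intro W _ L E e p q hnd hxE hE h3 hA hp hq hpq
  have hlen : (L.drop (L.length - 3)).length = 3 := by
    rw [List.length_drop]
    omega
  obtain ⟨y, z, u, hd⟩ := List.length_eq_three.1 hlen
  have hL : L = L.take (L.length - 3) ++ [y, z, u] := by
    rw [← hd, List.take_append_drop]
  generalize L.take (L.length - 3) = L' at hL
  subst hL
  have hnd' := List.nodup_append.1 hnd
  obtain ⟨n1, n2, n3⟩ := hnd'
  have hyz : y ≠ z := by
    intro h
    subst h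
    simp at n2
  have hyu : y ≠ u := by
    intro h
    subst h
    simp at n2
  have hzu : z ≠ u := by
    intro h
    subst h
    simp at n2
  have hset : dts (L' ++ [y, z, u]).toFinset ∪ E =
      dts L'.toFinset ∪ (dts {y, z, u} ∪ E) := by
    ext x
    simp only [dts, Finset.mem_union, Finset.mem_product, Finset.mem_univ, and_true,
      List.mem_toFinset, List.mem_append, Finset.mem_insert, Finset.mem_singleton,
      List.mem_cons, List.not_mem_nil, or_false]
    tauto
  rw [hNA W _ L' [y, z, u] e]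
  rw [hNLC W _ (fun _ => 0) L' (dts {y, z, u} ∪ E) e n1 ?_ ?_ ?_]
  · exact L6_zero L' e
  · intro x hx
    rw [Finset.mem_union] at hx
    rcases hx with hx | hx
    · simp only [dts, Finset.mem_product, Finset.mem_univ, and_true] at hx
      intro h
      have h5 : x.1 ∈ ([y, z, u] : List W) := by
        simpa using hx
      exact n3 x.1 h x.1 h5 rfl
    · intro h
      exact hxE x hx (List.mem_append.2 (Or.inl h))
  · rw [← hset]
    exact hA
  · intro e' he'
    refine L6_core hCMN hIN hDS hTRI y z u E e' p q hyz hyu hzu hE ?_ he' hp hq hpq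
    intro x hx
    have h5 := hxE x hx
    refine ⟨fun h => h5 ?_, fun h => h5 ?_, fun h => h5 ?_⟩
    · rw [h]; simp
    · rw [h]; simp
    · rw [h]; simp

end Pool.Agent.SYM
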