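import Pool.Agent.helper5.SYM.SpecB
import Pool.Agent.helper16.SYM.JV
import Pool.Agent.helper16.SYM.SMA
import Pool.Agent.helper16.SYM.SML

/-!
# Row sy:LB0
-/

set_option autoImplicit false

namespace Pool.Agent.SYM
open Finset CT Polynomial

theorem LB0_wA (h : PUnit.{1}) : wA h = 1 := by
  unfold wA
  have h1 : addOrderOf h = 1 := by
    rw [AddMonoid.addOrderOf_eq_one_iff]
  rw [h1, Nat.card_unique]

theorem LB0_lps {W : Type} [DecidableEq W] (t : W → Fin 3) (L : List W) :
    ∀ (e : W × Fin 4 → W × Fin 4) (α : W × Fin 4 → PUnit.{1}), lpsv L e α t = lps L e t := by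
  induction L with
  | nil =>
    intro e α
    rfl
  | cons u L ih =>
    intro e α
    show lsv e α u (t u) + lpsv L (sm e u (t u)) (smv e α u (t u)) t =
      ls e u (t u) + lps L (sm e u (t u)) t
    rw [ih]
    unfold lsv ls lv CT.lp
    simp only [LB0_wA]

/-- Functions and labelings by functions on one point. -/
def LB0_eq (D : Type) : (D → Bool) ≃ (D → PUnit.{1} → Bool) where
  toFun φ := fun d _ => φ d
  invFun Φ := fun d => Φ d PUnit.unit
  left_inv φ := rfl
  right_inv Φ := rfl

theorem LB0_lab {D : Type} (e : D → D) (α : D → PUnit.{1}) (hne : ∀ d, e d ≠ d)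
    (φ : D → Bool) : Lab e α (LB0_eq D φ) ↔ ∀ d, φ (e d) = φ d :=
  ⟨fun h d => h.1 d PUnit.unit, fun h => ⟨fun d _ => h d, fun d hd => absurd hd (hne d)⟩⟩

theorem LB0_card {W : Type} [DecidableEq W] (E : Finset (W × Fin 4))
    (f : W × Fin 4 → W × Fin 4) (β : W × Fin 4 → PUnit.{1})
    (K : (W × Fin 4 → PUnit.{1} → Bool) → Prop) (hf : Act E f)
    (hK : ∀ Φ, K Φ → ∀ d ∈ E, Φ d = fun _ => false) (hK0 : K (fun _ _ => false)) :
    Nat.card {Φ : W × Fin 4 → PUnit.{1} → Bool // Lab f β Φ ∧ K Φ} = 1 := by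
  rw [Nat.card_eq_one_iff_unique]
  refine ⟨⟨?_⟩, ⟨⟨fun _ _ => false, ⟨fun _ _ => rfl, fun _ _ => rfl⟩, hK0⟩⟩⟩
  have key : ∀ Φ : W × Fin 4 → PUnit.{1} → Bool, Lab f β Φ ∧ K Φ → Φ = fun _ _ => false := by
    rintro Φ ⟨h1, h2⟩
    funext d
    by_cases hd : d ∈ E
    · exact hK Φ h2 d hd
    · refine h1.2 d ?_
      by_contra h3
      exact hd ((hf.2 d).1 h3)
  rintro ⟨Φ, h⟩ ⟨Φ', h'⟩
  apply Subtype.ext
  show Φ = Φ'
  rw [key Φ h, key Φ' h']

theorem LB0 (hLBA : LBA_stmt) : LB0_stmt := by
  intro V _ _ v L e t hnd hv huniv hact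
  have hSML : SML_stmt := SML (SMA JV)
  have hne : ∀ d, e d ≠ d := by
    intro d
    rw [hact.2]
    simp [dts]
  have hvol : Vol e (fun _ : V × Fin 4 => PUnit.unit) := ⟨fun _ => rfl, fun _ _ => rfl⟩
  have hcase : ∀ w : V, w = v ∨ w ∈ L := by
    intro w
    have h1 : w ∈ insert v L.toFinset := by
      rw [huniv]
      exact Finset.mem_univ w
    simpa using h1
  constructor
  · -- zero at the vertex v
    have hxE : ∀ x ∈ (dts {v} : Finset (V × Fin 4)), x.1 ∉ L := by
      intro x hx
      simp only [dts, Finset.mem_product, Finset.mem_univ, and_true, Finset.mem_singleton] at hx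
      rw [hx]
      exact hv
    have hA : Act (dts L.toFinset ∪ dts {v}) e := by
      have h1 : dts L.toFinset ∪ dts {v} = (dts univ : Finset (V × Fin 4)) := by
        ext x
        simp only [dts, Finset.mem_union, Finset.mem_product, Finset.mem_univ, and_true,
          List.mem_toFinset, Finset.mem_singleton, iff_true]
        rcases hcase x.1 with h | h
        · exact Or.inr h
        · exact Or.inl h
      rw [h1]
      exact hact
    have h := hLBA V PUnit.{1} L (dts {v}) e (fun _ => PUnit.unit) t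
      (fun Φ => ∀ d : V × Fin 4, d.1 = v → Φ d = fun _ => false) hnd hxE hA hvol
      (fun Φ Φ' hΦ => by
        constructor
        · intro h1 d hd
          rw [← hΦ d (by rw [hd]; exact hv)]
          exact h1 d hd
        · intro h1 d hd
          rw [hΦ d (by rw [hd]; exact hv)]
          exact h1 d hd)
    rw [LB0_card (dts {v}) _ _ _ (hSML V PUnit.{1} L (dts {v}) e _ t hnd hxE hA hvol).1
      (fun Φ hΦ d hd => hΦ d (by
        simpa only [dts, Finset.mem_product, Finset.mem_univ, and_true,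
          Finset.mem_singleton] using hd)) (fun _ _ => rfl), mul_one, LB0_lps] at h
    rw [← h]
    refine Nat.card_congr ((LB0_eq (V × Fin 4)).subtypeEquiv fun φ => ?_)
    rw [LB0_lab e _ hne]
    constructor
    · rintro ⟨h1, h2, h3⟩
      refine ⟨h1, fun d hd => funext fun _ => h3 d hd, fun u _ i => ?_⟩
      exact funext fun _ => h2 (u, i)
    · rintro ⟨h1, h2, h3⟩
      have h4 : ∀ d : V × Fin 4, d.1 = v → φ d = false := fun d hd =>
        congrFun (h2 d hd) PUnit.unit
      refine ⟨h1, fun d => ?_, h4⟩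
      rcases hcase d.1 with hd | hd
      · rw [h4 d hd]
        exact h4 (tr t d) hd
      · exact congrFun (h3 d.1 hd d.2) PUnit.unit
  · -- the whole list
    have hnd2 : (L ++ [v]).Nodup := by
      rw [List.nodup_append]
      refine ⟨hnd, by simp, fun a ha b hb => ?_⟩
      rw [List.mem_singleton] at hb
      rw [hb]
      intro h1
      rw [h1] at ha
      exact hv ha
    have hxE : ∀ x ∈ (∅ : Finset (V × Fin 4)), x.1 ∉ L ++ [v] := by
      intro x hx
      exact absurd hx (Finset.notMem_empty x)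
    have hA : Act (dts (L ++ [v]).toFinset ∪ ∅) e := by
      have h1 : dts (L ++ [v]).toFinset ∪ ∅ = (dts univ : Finset (V × Fin 4)) := by
        ext x
        simp only [dts, Finset.union_empty, Finset.mem_product, Finset.mem_univ, and_true,
          List.mem_toFinset, List.mem_append, List.mem_singleton, iff_true]
        rcases hcase x.1 with h | h
        · exact Or.inr h
        · exact Or.inl h
      rw [h1]
      exact hact
    have h := hLBA V PUnit.{1} (L ++ [v]) ∅ e (fun _ => PUnit.unit) t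
      (fun Φ => True) hnd2 hxE hA hvol (fun Φ Φ' hΦ => Iff.rfl)
    rw [LB0_card ∅ _ _ _ (hSML V PUnit.{1} (L ++ [v]) ∅ e _ t hnd2 hxE hA hvol).1
      (fun Φ hΦ d hd => absurd hd (Finset.notMem_empty d)) trivial, mul_one, LB0_lps] at h
    rw [← h]
    refine Nat.card_congr ((LB0_eq (V × Fin 4)).subtypeEquiv fun φ => ?_)
    rw [LB0_lab e _ hne]
    constructor
    · rintro ⟨h1, h2⟩
      exact ⟨h1, trivial, fun u _ i => funext fun _ => h2 (u, i)⟩
    · rintro ⟨h1, -, h3⟩
      refine ⟨h1, fun d => ?_⟩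
      have hd : d.1 ∈ L ++ [v] := by
        rw [List.mem_append, List.mem_singleton]
        exact (hcase d.1).symm
      exact congrFun (h3 d.1 hd d.2) PUnit.unit

end Pool.Agent.SYM
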