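import Pool.Agent.helper5.SYM.SpecB

/-!
# Row sy:LNK1
-/

set_option autoImplicit false

namespace Pool.Agent.SYM
open Finset CT Polynomial

theorem LNK1_congr {W : Type} [DecidableEq W] (t t' : W → Fin 3) (L : List W) :
    ∀ (e : W × Fin 4 → W × Fin 4), (∀ u ∈ L, t u = t' u) → lps L e t = lps L e t' := by
  induction L with
  | nil =>
    intro e _
    rfl
  | cons u L ih =>
    intro e h
    show ls e u (t u) + lps L (sm e u (t u)) t = ls e u (t' u) + lps L (sm e u (t' u)) t'
    rw [h u (by simp), ih _ (fun v hv => h v (List.mem_cons_of_mem u hv))]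

theorem LNK1_count {V : Type} {G : SimpleGraph V} (T : (V → Fin 3) → G.Dart → G.Dart)
    (h1 : ∀ t, IsTS (T t)) (h2 : ∀ τ : G.Dart → G.Dart, IsTS τ → ∃! t, T t = τ)
    (P : (G.Dart → G.Dart) → Prop) :
    Nat.card {τ : G.Dart → G.Dart // IsTS τ ∧ P τ} = Nat.card {t : V → Fin 3 // P (T t)} := by
  refine (Nat.card_congr (Equiv.ofBijective
    (fun t : {t : V → Fin 3 // P (T t)} =>
      (⟨T t.1, h1 t.1, t.2⟩ : {τ : G.Dart → G.Dart // IsTS τ ∧ P τ})) ⟨?_, ?_⟩)).symm
  · rintro ⟨t, ht⟩ ⟨t', ht'⟩ h
    have h3 : T t = T t' := congrArg Subtype.val h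
    apply Subtype.ext
    exact (h2 (T t') (h1 t')).unique h3 rfl
  · rintro ⟨τ, hτ, hP⟩
    obtain ⟨t, ht, -⟩ := h2 τ hτ
    have ht' : T t = τ := ht
    refine ⟨⟨t, by rw [ht']; exact hP⟩, ?_⟩
    apply Subtype.ext
    exact ht

theorem LNK1_pf {V : Type} [Fintype V] [DecidableEq V] (w : V) (t : V → Fin 3) :
    t ∈ pf ((univ : Finset V).erase w) ↔ t w = 0 := by
  unfold pf
  rw [Fintype.mem_piFinset]
  constructor
  · intro h
    have h1 := h w
    rw [if_neg (Finset.notMem_erase w _)] at h1
    exact Finset.mem_singleton.1 h1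
  · intro h u
    by_cases hu : u = w
    · rw [hu, if_neg (Finset.notMem_erase w _), h]
      exact Finset.mem_singleton_self 0
    · rw [if_pos (Finset.mem_erase.2 ⟨hu, Finset.mem_univ u⟩)]
      exact Finset.mem_univ _

theorem LNK1_pfu {V : Type} [Fintype V] [DecidableEq V] :
    (pf (univ : Finset V) : Finset (V → Fin 3)) = univ := by
  ext t
  unfold pf
  rw [Fintype.mem_piFinset]
  simp

theorem LNK1 (hN31 : N31_stmt) (hTRP : TRP_stmt) : LNK1_stmt := by
  classical
  intro V _ _ G w hG _ hodd
  have hG' : G.IsRegularOfDegree 4 := by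
    intro u
    rw [← hG u, Nat.card_eq_fintype_card, ← SimpleGraph.card_neighborSet_eq_degree]
    rfl
  obtain ⟨e, he, h1, h2, h3⟩ := E3 V G hG'
  have hnd : ((univ : Finset V).erase w).toList.Nodup := Finset.nodup_toList _
  have hLs : (((univ : Finset V).erase w).toList).toFinset = univ.erase w :=
    Finset.toList_toFinset _
  generalize ((univ : Finset V).erase w).toList = L at hnd hLs
  have hwL : w ∉ L := by
    intro h
    have h4 : w ∈ L.toFinset := List.mem_toFinset.2 h
    rw [hLs] at h4
    exact Finset.notMem_erase w _ h4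
  have hmem : ∀ u ∈ L, u ≠ w := by
    intro u hu h
    rw [h] at hu
    exact hwL hu
  obtain ⟨T, hT1, hT2, hT3⟩ := hTRP V G w e L he h1 h2 h3 hnd hLs
  have hins : insert w L.toFinset = univ := by
    rw [hLs]
    exact Finset.insert_erase (Finset.mem_univ w)
  have happ : (L ++ [w]).toFinset = univ := by
    rw [List.toFinset_append, ← hins]
    ext x
    simp only [Finset.mem_union, Finset.mem_insert, List.mem_toFinset, List.mem_singleton]
    tauto
  have hN := hN31 V w L e hnd hwL (by rw [hins]; exact he)
  have hN3 : N3 G = ((pf (L ++ [w]).toFinset).filter fun t => lps (L ++ [w]) e t = 3).card := by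
    unfold N3
    rw [LNK1_count T hT1 hT2 (fun τ => gav τ (fun _ => False) = 3), happ, LNK1_pfu,
      Nat.card_eq_fintype_card, Fintype.card_subtype]
    congr 1
    ext t
    simp only [Finset.mem_filter, Finset.mem_univ, true_and]
    rw [(hT3 t).1]
  have hN1 : N1 G w = ((pf L.toFinset).filter fun t => lps L e t = 1).card * 3 := by
    unfold N1
    rw [LNK1_count T hT1 hT2 (fun τ => gav τ (fun d => d.fst = w) = 1)]
    have h5 : Nat.card {t : V → Fin 3 // gav (T t) (fun d => d.fst = w) = 1} =
        Nat.card ({t : V → Fin 3 // t ∈ (pf L.toFinset).filter fun t => lps L e t = 1} ×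
          Fin 3) := by
      refine Nat.card_congr
        { toFun := fun t => (⟨Function.update t.1 w 0, ?_⟩, t.1 w)
          invFun := fun p => ⟨Function.update p.1.1 w p.2, ?_⟩
          left_inv := ?_
          right_inv := ?_ }
      · rw [Finset.mem_filter]
        constructor
        · rw [hLs, LNK1_pf, Function.update_self]
        · rw [LNK1_congr (Function.update t.1 w 0) t.1 L e
            (fun u hu => Function.update_of_ne (hmem u hu) _ _), ← (hT3 t.1).2]
          exact t.2
      · rw [(hT3 _).2, LNK1_congr (Function.update p.1.1 w p.2) p.1.1 L e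
          (fun u hu => Function.update_of_ne (hmem u hu) _ _)]
        exact (Finset.mem_filter.1 p.1.2).2
      · intro t
        apply Subtype.ext
        show Function.update (Function.update t.1 w 0) w (t.1 w) = t.1
        rw [Function.update_idem, Function.update_eq_self]
      · rintro ⟨⟨t, ht⟩, s⟩
        have h6 : t w = 0 := by
          have h7 := (Finset.mem_filter.1 ht).1
          rw [hLs, LNK1_pf] at h7
          exact h7
        refine Prod.ext ?_ ?_
        · apply Subtype.ext
          show Function.update (Function.update t w s) w 0 = t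
          rw [Function.update_idem, ← h6, Function.update_eq_self]
        · show Function.update t w s w = s
          rw [Function.update_self]
    rw [h5, Nat.card_prod, Nat.card_eq_fintype_card, Fintype.card_coe, Nat.card_eq_fintype_card,
      Fintype.card_fin]
  rw [hN3, hN] at hodd
  have h8 : Odd ((pf L.toFinset).filter fun t => lps L e t = 1).card := by
    rcases Nat.even_or_odd ((pf L.toFinset).filter fun t => lps L e t = 1).card with h | h
    · exfalso
      rw [← Nat.not_even_iff_odd] at hodd
      exact hodd (h.add (even_two_mul _))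
    · exact h
  rw [hN1]
  exact h8.mul (by decide)

end Pool.Agent.SYM
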